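import Pool.Agent.Q218.LE.Stm

/-!
Project LE (helper218): job LE-SYM (S_SYM).
-/

set_option autoImplicit false

open scoped BigOperators
open MeasureTheory

namespace Pool.Agent.Q211.LE

open Pool.Agent.TH794.HK (cg cg_add cg_le_one cg_abs bet bet_odd bet_sq rv_sum adj_cg)
open Pool.Agent.TH794.QD (rv sg rfl' adj_rfl rv_add rv_mul rv_mono rv_nonneg)
open Pool.Agent.W788.MFP.Four (T NN adj NN_pos)

variable {d L : ℕ} [NeZero L]

/-- permutation of the coordinates -/
def pm (π : Equiv.Perm (Fin d)) : T d L ≃ T d L where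
  toFun k := fun i => k (π i)
  invFun k := fun i => k (π.symm i)
  left_inv k := by
    funext i
    simp
  right_inv k := by
    funext i
    simp

theorem cg_pm (π : Equiv.Perm (Fin d)) (i : Fin d) (k : T d L) : cg i (pm π k) = cg (π i) k := rfl

theorem sg_pm (π : Equiv.Perm (Fin d)) (i : Fin d) (k : T d L) : sg i (pm π k) = sg (π i) k := rfl

theorem adj_pm (π : Equiv.Perm (Fin d)) (k : T d L) : adj (pm π k) = adj k := by
  rw [adj_cg, adj_cg]
  exact Equiv.sum_comp π (fun i => 2 * cg i k)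

theorem rv_pm (π : Equiv.Perm (Fin d)) (N : ℝ) (f : T d L → ℝ) :
    rv N (fun k => f (pm π k)) = rv N f := by
  unfold rv
  rw [Equiv.sum_comp (pm π) f]

theorem cg_rfl (i j : Fin d) (k : T d L) : cg i (rfl' j k) = cg i k := by
  unfold cg rfl'
  simp only [Equiv.coe_fn_mk]
  by_cases h : i = j
  · rw [h, Function.update_self, ZMod.stdAddChar_apply, ZMod.stdAddChar_apply,
      AddChar.map_neg_eq_inv]
    simp
  · rw [Function.update_of_ne h]

theorem cg_sg (i : Fin d) (k : T d L) : cg i k ^ 2 + sg i k ^ 2 = 1 := by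
  unfold cg sg
  have h3 : ‖(ZMod.stdAddChar (k i) : ℂ)‖ = 1 := by
    rw [ZMod.stdAddChar_apply]
    exact Circle.norm_coe _
  have h4 := Complex.sq_norm (ZMod.stdAddChar (k i) : ℂ)
  rw [h3, Complex.normSq_apply] at h4
  nlinarith

/-- the even part -/
noncomputable def ev (u : Fin d → ℝ) (k : T d L) : ℝ := ∑ i, 2 * (u i * cg i k)

theorem ev_pm (π : Equiv.Perm (Fin d)) (u : Fin d → ℝ) (k : T d L) :
    ev u (pm π k) = ev (fun i => u (π.symm i)) k := by
  unfold ev
  rw [← Equiv.sum_comp π (fun i => 2 * (u (π.symm i) * cg i k))]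
  refine Finset.sum_congr rfl fun i _ => ?_
  rw [cg_pm, Equiv.symm_apply_apply]

theorem t_SYM : Pool.Agent.Q218.LE.S_SYM := by
  intro d L _ φ P0 i0 sl al hφ hsl hal h1 h2
  set w : T d L → ℝ := fun k => φ (adj k) with hw
  have hwn : ∀ k, 0 ≤ w k := fun k => hφ _
  have hwr : ∀ (i : Fin d) (k : T d L), w (rfl' i k) = w k := fun i k => by simp only [hw, adj_rfl]
  have hwp : ∀ (π : Equiv.Perm (Fin d)) (k : T d L), w (pm π k) = w k := fun π k => by simp only [hw, adj_pm]
  set u : Fin d → ℝ := fun i => 1 - cg i P0 with hu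
  have hu0 : ∀ i, 0 ≤ u i := fun i => cg_le_one i P0
  have hU0 : 0 ≤ ∑ i, u i := Finset.sum_nonneg fun i _ => hu0 i
  have hN : 0 < NN d L := NN_pos
  -- decomposition
  have e1 : ∀ k : T d L, adj k - adj (k + P0) = ev u k + bet P0 k := by
    intro k
    rw [adj_cg, adj_cg]
    unfold ev bet
    rw [← Finset.sum_sub_distrib, ← Finset.sum_add_distrib]
    refine Finset.sum_congr rfl fun i _ => ?_
    rw [cg_add]
    simp only [hu]
    ring
  have hevr : ∀ (i : Fin d) (k : T d L), ev u (rfl' i k) = ev u k := by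
    intro i k
    unfold ev
    exact Finset.sum_congr rfl fun j _ => by rw [cg_rfl]
  have e2 : rv (NN d L) (fun k : T d L => (adj k - adj (k + P0)) ^ 2 * φ (adj k)) =
      rv (NN d L) (fun k : T d L => ev u k ^ 2 * w k) +
        rv (NN d L) (fun k : T d L => bet P0 k ^ 2 * w k) := by
    have e3 : rv (NN d L) (fun k : T d L => bet P0 k * (2 * ev u k * w k)) = 0 := by
      refine bet_odd P0 (fun k => 2 * ev u k * w k) fun i k => ?_
      rw [hevr, hwr]
    have e4 : ∀ k : T d L, (adj k - adj (k + P0)) ^ 2 * φ (adj k) =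
        (ev u k ^ 2 * w k + bet P0 k ^ 2 * w k) + bet P0 k * (2 * ev u k * w k) := by
      intro k
      rw [e1 k]
      ring
    simp only [e4]
    rw [rv_add, e3, add_zero, rv_add]
  rw [e2]
  have e5 : ∀ i, rv (NN d L) (fun k : T d L => sg i k ^ 2 * w k) =
      rv (NN d L) (fun k : T d L => sg i0 k ^ 2 * w k) := by
    intro i
    rw [← rv_pm (Equiv.swap i0 i) (NN d L) (fun k : T d L => sg i0 k ^ 2 * w k)]
    congr 1
    funext k
    rw [sg_pm, Equiv.swap_apply_left, hwp]
  have e6 : rv (NN d L) (fun k : T d L => bet P0 k ^ 2 * w k) =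
      ∑ i, (2 * sg i P0) ^ 2 * rv (NN d L) (fun k : T d L => sg i0 k ^ 2 * w k) := by
    rw [bet_sq P0 w hwr]
    exact Finset.sum_congr rfl fun i _ => by rw [e5 i]
  have hsl' : 0 ≤ rv (NN d L) (fun k : T d L => sg i0 k ^ 2 * w k) :=
    rv_nonneg hN fun k => mul_nonneg (sq_nonneg _) (hwn k)
  have hev0 : 0 ≤ rv (NN d L) (fun k : T d L => ev u k ^ 2 * w k) :=
    rv_nonneg hN fun k => mul_nonneg (sq_nonneg _) (hwn k)
  have hbet0 : 0 ≤ rv (NN d L) (fun k : T d L => bet P0 k ^ 2 * w k) :=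
    rv_nonneg hN fun k => mul_nonneg (sq_nonneg _) (hwn k)
  by_cases hc : ∀ i, u i ≤ 1
  · -- all `u i ≤ 1`
    have k1 : 4 * sl * ∑ i, u i ≤ rv (NN d L) (fun k : T d L => bet P0 k ^ 2 * w k) := by
      rw [e6, Finset.mul_sum]
      refine Finset.sum_le_sum fun i _ => ?_
      have a1 := cg_sg i P0
      have a2 : sg i P0 ^ 2 = u i * (2 - u i) := by
        simp only [hu]
        nlinarith
      have a3 : u i ≤ sg i P0 ^ 2 := by
        rw [a2]
        nlinarith [hu0 i, hc i]
      calc 4 * sl * u i ≤ 4 * rv (NN d L) (fun k : T d L => sg i0 k ^ 2 * w k) * sg i P0 ^ 2 :=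
            mul_le_mul (by linarith) a3 (hu0 i) (by linarith)
        _ = _ := by ring
    calc min (4 * sl) (al / d ^ 2) * ∑ i, u i ≤ 4 * sl * ∑ i, u i :=
          mul_le_mul_of_nonneg_right (min_le_left _ _) hU0
      _ ≤ _ := by linarith
  · push Not at hc
    obtain ⟨i1, hi1⟩ := hc
    have hd : 0 < d := lt_of_le_of_lt (Nat.zero_le _) i1.2
    haveI : NeZero d := ⟨hd.ne'⟩
    have hdr : (0 : ℝ) < d := by exact_mod_cast hd
    have hU1 : 1 ≤ ∑ i, u i :=
      hi1.le.trans (Finset.single_le_sum (fun i _ => hu0 i) (Finset.mem_univ i1))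
    set U := ∑ i, u i with hUdef
    have k2 : ∀ j : Fin d, rv (NN d L) (fun k : T d L => ev (fun i => u (i + j)) k ^ 2 * w k) =
        rv (NN d L) (fun k : T d L => ev u k ^ 2 * w k) := by
      intro j
      rw [← rv_pm (Equiv.addRight j).symm (NN d L) (fun k : T d L => ev u k ^ 2 * w k)]
      congr 1
      funext k
      rw [ev_pm, hwp]
      rfl
    have k3 : ∀ k : T d L, ∑ j : Fin d, ev (fun i => u (i + j)) k = U * adj k := by
      intro k
      unfold ev
      rw [Finset.sum_comm, adj_cg, Finset.mul_sum]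
      refine Finset.sum_congr rfl fun i _ => ?_
      rw [← Finset.mul_sum, ← Finset.sum_mul]
      have : ∑ j, u (i + j) = U := Equiv.sum_comp (Equiv.addLeft i) u
      rw [this]
      ring
    have k4 : ∀ k : T d L, U ^ 2 * (adj k ^ 2 * w k) ≤
        d * ∑ j : Fin d, ev (fun i => u (i + j)) k ^ 2 * w k := by
      intro k
      have b1 : (∑ j : Fin d, ev (fun i => u (i + j)) k) ^ 2 ≤
          d * ∑ j : Fin d, ev (fun i => u (i + j)) k ^ 2 := by
        have := sq_sum_le_card_mul_sum_sq (s := (Finset.univ : Finset (Fin d)))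
          (f := fun j => ev (fun i => u (i + j)) k)
        rwa [Finset.card_univ, Fintype.card_fin] at this
      rw [k3 k] at b1
      calc U ^ 2 * (adj k ^ 2 * w k) = (U * adj k) ^ 2 * w k := by ring
        _ ≤ (d * ∑ j : Fin d, ev (fun i => u (i + j)) k ^ 2) * w k :=
            mul_le_mul_of_nonneg_right b1 (hwn k)
        _ = _ := by rw [mul_assoc, Finset.sum_mul]
    have k5 : U ^ 2 * rv (NN d L) (fun k : T d L => adj k ^ 2 * w k) ≤
        d ^ 2 * rv (NN d L) (fun k : T d L => ev u k ^ 2 * w k) := by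
      rw [← rv_mul]
      refine (rv_mono hN k4).trans (le_of_eq ?_)
      rw [rv_mul, rv_sum, Finset.sum_congr rfl fun j _ => k2 j, Finset.sum_const, Finset.card_univ,
        Fintype.card_fin, nsmul_eq_mul]
      ring
    have k6 : al / d ^ 2 * U ≤ rv (NN d L) (fun k : T d L => ev u k ^ 2 * w k) := by
      rw [div_mul_eq_mul_div, div_le_iff₀ (by positivity)]
      calc al * U ≤ U ^ 2 * al := by nlinarith [mul_nonneg hal (mul_nonneg (by linarith : 0 ≤ U) (by linarith : 0 ≤ U - 1))]
        _ ≤ U ^ 2 * rv (NN d L) (fun k : T d L => adj k ^ 2 * w k) :=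
            mul_le_mul_of_nonneg_left h2 (sq_nonneg _)
        _ ≤ _ := by linarith
    calc min (4 * sl) (al / d ^ 2) * U ≤ al / d ^ 2 * U :=
          mul_le_mul_of_nonneg_right (min_le_right _ _) hU0
      _ ≤ _ := by linarith

end Pool.Agent.Q211.LE
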